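import Pool.Agent.Helper76.CV.Goals

open scoped ContDiff
open Filter Topology

namespace Pool.Agent.Helper57.CV.STB

open Pool.Agent.Helper76.CV

lemma bdd (g : ℝ → ℝ) (hg : Continuous g) (h0 : ∀ x, x < 0 → g x = 0) (h1 : ∀ x, 1 < x → g x = 0) :
    ∃ K, 0 < K ∧ ∀ x, |g x| ≤ K := by
  obtain ⟨K, hK⟩ := isCompact_Icc.exists_bound_of_continuousOn (s := Set.Icc (0 : ℝ) 1) hg.continuousOn
  refine ⟨|K| + 1, by positivity, fun x => ?_⟩
  rcases lt_or_ge x 0 with h | h
  · rw [h0 x h, abs_zero]; positivity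
  rcases lt_or_ge 1 x with h' | h'
  · rw [h1 x h', abs_zero]; positivity
  have := hK x ⟨h, h'⟩
  rw [Real.norm_eq_abs] at this
  linarith [le_abs_self K]

lemma e0 (x : ℝ) (hx : x < 0) : Real.smoothTransition =ᶠ[𝓝 x] fun _ => 0 := by
  filter_upwards [Iio_mem_nhds hx] with y hy
  exact Real.smoothTransition.zero_of_nonpos (le_of_lt hy)

lemma e1 (x : ℝ) (hx : 1 < x) : Real.smoothTransition =ᶠ[𝓝 x] fun _ => 1 := by
  filter_upwards [Ioi_mem_nhds hx] with y hy
  exact Real.smoothTransition.one_of_one_le (le_of_lt hy)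

theorem t : Pool.Agent.Helper76.CV.STB := by
  have hs : ContDiff ℝ 2 Real.smoothTransition := Real.smoothTransition.contDiff
  have hd1 : ContDiff ℝ 1 (deriv Real.smoothTransition) := by
    have h2 : ContDiff ℝ (1 + 1) Real.smoothTransition := by simpa [one_add_one_eq_two] using hs
    exact (contDiff_succ_iff_deriv.1 h2).2.2
  have hd2 : Continuous (deriv (deriv Real.smoothTransition)) :=
    hd1.continuous_deriv le_rfl
  obtain ⟨K1, hK1, h1⟩ := bdd (deriv Real.smoothTransition) hd1.continuous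
    (fun x hx => by rw [(e0 x hx).deriv_eq]; simp) (fun x hx => by rw [(e1 x hx).deriv_eq]; simp)
  obtain ⟨K2, hK2, h2⟩ := bdd (deriv (deriv Real.smoothTransition)) hd2
    (fun x hx => by rw [(e0 x hx).deriv.deriv_eq]; simp)
    (fun x hx => by rw [(e1 x hx).deriv.deriv_eq]; simp)
  refine ⟨1 + K1 + K2, by positivity, fun x => ⟨?_, ?_, ?_⟩⟩
  · rw [abs_of_nonneg (Real.smoothTransition.nonneg x)]
    have := Real.smoothTransition.le_one x
    linarith
  · linarith [h1 x]
  · linarith [h2 x]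

end Pool.Agent.Helper57.CV.STB
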